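import Pool.Agent.Q264.LK.Stm

/-!
# The boundary of a small connected set of inner vertices of the layered graph
-/

set_option autoImplicit false

open Finset
open scoped Classical

namespace Pool.Agent.Q25.LK

open Pool.Agent.Q264.LK

section general
variable {V : Type} (G : SimpleGraph V)

/-- connected finite sets -/
def Cn (S : Finset V) : Prop := ∀ u ∈ S, ∀ v ∈ S, (res G S).Reachable u v

theorem res_le (S : Finset V) : res G S ≤ G := fun _ _ h => h.1

theorem walk_res_mem {S : Finset V} {a b : V} (p : (res G S).Walk a b) (ha : a ∈ S) :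
    ∀ x ∈ p.support, x ∈ S := by
  induction p with
  | nil => intro x hx; simp at hx; rwa [hx]
  | cons h q ih =>
    intro x hx
    rw [SimpleGraph.Walk.support_cons, List.mem_cons] at hx
    rcases hx with hx | hx
    · rwa [hx]
    · exact ih h.2.2 x hx

/-- in a graph of large girth a vertex outside a small connected set has at most one neighbour
in it -/
theorem unique_nbr {S : Finset V} (hS : Cn G S) (hg : ((S.card + 1 : ℕ) : ℕ∞) < G.egirth)
    {w a b : V} (hw : w ∉ S) (ha : a ∈ S) (hb : b ∈ S) (hwa : G.Adj w a) (hwb : G.Adj w b) :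
    a = b := by
  by_contra hab
  obtain ⟨p, hp⟩ := (hS a ha b hb).exists_isPath
  let q : G.Walk a b := p.mapLe (res_le G S)
  have hq : q.IsPath := hp.mapLe _
  have hqs : q.support = p.support := by simp [q]
  have hwq : w ∉ q.support := by
    rw [hqs]
    intro h
    exact hw (walk_res_mem G p ha w h)
  have hlen : q.length + 1 ≤ S.card := by
    rw [← SimpleGraph.Walk.length_support, hqs, ← List.toFinset_card_of_nodup hp.support_nodup]
    apply card_le_card
    intro x hx
    exact walk_res_mem G p ha x (List.mem_toFinset.1 hx)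
  let r : G.Walk a w := q.concat hwb.symm
  have hr : r.IsPath := hq.concat hwq hwb.symm
  have he : s(w, a) ∉ r.edges := by
    intro h
    rw [SimpleGraph.Walk.edges_concat, List.concat_eq_append, List.mem_append,
      List.mem_singleton] at h
    rcases h with h | h
    · exact hwq (q.fst_mem_support_of_mem_edges h)
    · rw [Sym2.eq_iff] at h
      rcases h with ⟨h1, -⟩ | ⟨-, h1⟩
      · exact hw (h1 ▸ hb)
      · exact hab h1
  have hc : (SimpleGraph.Walk.cons hwa r).IsCycle := (SimpleGraph.Walk.cons_isCycle_iff r hwa).2 ⟨hr, he⟩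
  have h1 := SimpleGraph.egirth_le_length hc
  have h2 : (SimpleGraph.Walk.cons hwa r).length = q.length + 2 := by
    rw [SimpleGraph.Walk.length_cons, SimpleGraph.Walk.length_concat]
  rw [h2] at h1
  have h3 := lt_of_lt_of_le hg h1
  have h4 : S.card + 1 < q.length + 2 := by exact_mod_cast h3
  omega

/-- from walks in the restriction to walks in the induced graph -/
theorem reach_induce {S : Finset V} {a b : V} (p : (res G S).Walk a b) (ha : a ∈ S) (hb : b ∈ S) :
    (G.induce (S : Set V)).Reachable ⟨a, ha⟩ ⟨b, hb⟩ := by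
  induction p with
  | nil => exact SimpleGraph.Reachable.refl _
  | @cons u v w h q ih =>
    have h1 : (G.induce (S : Set V)).Adj ⟨u, ha⟩ ⟨v, h.2.2⟩ := h.1
    exact h1.reachable.trans (ih h.2.2 hb)

theorem exists_erase {S : Finset V} (hS : Cn G S) (h2 : 2 ≤ S.card) :
    ∃ v ∈ S, Cn G (S.erase v) := by
  obtain ⟨x, hx, y, hy, hxy⟩ := one_lt_card.1 (by omega : 1 < S.card)
  haveI : Nontrivial (S : Set V) := ⟨⟨⟨x, hx⟩, ⟨y, hy⟩, fun h => hxy (congrArg Subtype.val h)⟩⟩
  have hconn : (G.induce (S : Set V)).Connected := by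
    haveI : Nonempty (S : Set V) := ⟨⟨x, hx⟩⟩
    refine ⟨fun a b => ?_⟩
    obtain ⟨p⟩ := hS a.1 a.2 b.1 b.2
    exact reach_induce G p a.2 b.2
  obtain ⟨v, hv⟩ := hconn.exists_connected_induce_compl_singleton_of_finite_nontrivial
  refine ⟨v.1, v.2, ?_⟩
  intro a ha b hb
  rw [mem_erase] at ha hb
  have h := hv.preconnected ⟨⟨a, ha.2⟩, fun h => ha.1 (congrArg Subtype.val h)⟩
    ⟨⟨b, hb.2⟩, fun h => hb.1 (congrArg Subtype.val h)⟩
  let f : ((G.induce (S : Set V)).induce ({v}ᶜ : Set (S : Set V))) →g res G (S.erase v.1) :=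
    { toFun := fun z => z.1.1
      map_rel' := by
        intro z z' hz
        refine ⟨hz, mem_erase.2 ⟨fun h => z.2 (Subtype.ext h), z.1.2⟩,
          mem_erase.2 ⟨fun h => z'.2 (Subtype.ext h), z'.1.2⟩⟩ }
  exact h.map f

theorem exists_nbr {S : Finset V} (hS : Cn G S) {v u : V} (hv : v ∈ S) (hu : u ∈ S)
    (huv : u ≠ v) : ∃ w ∈ S.erase v, G.Adj v w := by
  obtain ⟨p⟩ := hS v hv u hu
  cases p with
  | nil => exact absurd rfl huv
  | @cons _ w _ h q =>
    exact ⟨w, mem_erase.2 ⟨h.1.ne', h.2.2⟩, h.1⟩

variable [Fintype V]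

theorem bd_card (d R0 : ℕ) (hd : 1 ≤ d) (hg : ((R0 + 1 : ℕ) : ℕ∞) < G.egirth) :
    ∀ (n : ℕ) (S : Finset V), S.card = n + 1 → n + 1 ≤ R0 → Cn G S →
    (∀ u ∈ S, (univ.filter fun w => G.Adj u w).card = d + 1) →
    (bd G S).card = (d - 1) * S.card + 2 := by
  intro n
  induction n with
  | zero =>
    intro S hS hR hC hdeg
    obtain ⟨v, rfl⟩ := card_eq_one.1 hS
    have : bd G {v} = univ.filter fun w => G.Adj v w := by
      ext w
      simp only [bd, mem_filter, mem_univ, true_and, mem_singleton, exists_eq_left]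
      exact ⟨fun h => h.2, fun h => ⟨fun h' => G.irrefl (h' ▸ h), h⟩⟩
    rw [this, hdeg v (mem_singleton_self v), card_singleton]
    omega
  | succ n ih =>
    intro S hS hR hC hdeg
    obtain ⟨v, hv, hC'⟩ := exists_erase G hC (by omega)
    have hcard' : (S.erase v).card = n + 1 := by rw [card_erase_of_mem hv]; omega
    have ih' := ih (S.erase v) hcard' (by omega) hC' (fun u hu => hdeg u (mem_of_mem_erase hu))
    obtain ⟨u, hu⟩ : (S.erase v).Nonempty := card_pos.1 (by omega)
    obtain ⟨a, ha, hva⟩ := exists_nbr G hC hv (mem_of_mem_erase hu) (ne_of_mem_erase hu)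
    have hgS : ((S.card + 1 : ℕ) : ℕ∞) < G.egirth :=
      lt_of_le_of_lt (by exact_mod_cast (by omega : S.card + 1 ≤ R0 + 1)) hg
    have hgS' : (((S.erase v).card + 1 : ℕ) : ℕ∞) < G.egirth :=
      lt_of_le_of_lt (by exact_mod_cast (by omega : (S.erase v).card + 1 ≤ R0 + 1)) hg
    have hvS' : v ∉ S.erase v := notMem_erase v S
    -- `N(v) ∩ S = {a}`
    have hN : univ.filter (fun w => G.Adj v w) = insert a (univ.filter fun w => w ∉ S ∧ G.Adj v w) := by
      ext w
      simp only [mem_filter, mem_univ, true_and, mem_insert]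
      constructor
      · intro h
        by_cases hw : w ∈ S
        · left
          have hw' : w ∈ S.erase v := mem_erase.2 ⟨h.ne', hw⟩
          exact unique_nbr G hC' hgS' hvS' hw' ha h hva
        · exact Or.inr ⟨hw, h⟩
      · rintro (rfl | h)
        · exact hva
        · exact h.2
    have haN : a ∉ univ.filter fun w => w ∉ S ∧ G.Adj v w := by
      simp only [mem_filter, mem_univ, true_and, not_and]
      intro h
      exact absurd (mem_of_mem_erase ha) h
    have hNc : (univ.filter fun w => w ∉ S ∧ G.Adj v w).card = d := by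
      have := hdeg v hv
      rw [hN, card_insert_of_notMem haN] at this
      omega
    have hvbd : v ∈ bd G (S.erase v) := by
      simp only [bd, mem_filter, mem_univ, true_and]
      exact ⟨hvS', a, ha, hva.symm⟩
    have hbd : bd G S = (bd G (S.erase v)).erase v ∪ univ.filter fun w => w ∉ S ∧ G.Adj v w := by
      ext w
      simp only [bd, mem_filter, mem_univ, true_and, mem_union, mem_erase, not_and]
      constructor
      · rintro ⟨hw, s, hs, hsw⟩
        by_cases hsv : s = v
        · subst hsv
          exact Or.inr ⟨hw, hsw⟩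
        · left
          exact ⟨fun h => hw (h ▸ hv), fun _ => hw, s, ⟨hsv, hs⟩, hsw⟩
      · rintro (⟨hwv, hw, s, ⟨-, hs⟩, hsw⟩ | ⟨hw, hvw⟩)
        · exact ⟨hw hwv, s, hs, hsw⟩
        · exact ⟨hw, v, hv, hvw⟩
    have hdisj : Disjoint ((bd G (S.erase v)).erase v) (univ.filter fun w => w ∉ S ∧ G.Adj v w) := by
      rw [disjoint_left]
      intro w hw hw'
      simp only [bd, mem_filter, mem_univ, true_and, mem_erase] at hw hw'
      obtain ⟨-, -, s, ⟨hsv, hs⟩, hsw⟩ := hw
      exact hsv (unique_nbr G hC hgS hw'.1 hs hv hsw.symm hw'.2.symm)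
    rw [hbd, card_union_of_disjoint hdisj, card_erase_of_mem hvbd, ih', hNc, hcard', hS]
    obtain ⟨e, rfl⟩ : ∃ e, d = e + 1 := ⟨d - 1, by omega⟩
    simp only [Nat.add_sub_cancel]
    have : e * (n + 1 + 1) = e * (n + 1) + e := by ring
    omega

end general

section layered
variable {k T : ℕ} {Γ : Type} [Fintype Γ] (π : Fin k → Equiv.Perm Γ)

theorem lay_deg (hπ : ∀ x, Function.Injective fun j => π j x) (u : Fin (T + 1) × Γ)
    (h0 : 0 < u.1.val) (hT : u.1.val < T) :
    (univ.filter fun w => (lay k T π).Adj u w).card = 2 * k := by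
  let f : Fin k ⊕ Fin k → Fin (T + 1) × Γ := fun s =>
    match s with
    | .inl j => (⟨u.1.val + 1, by omega⟩, π j u.2)
    | .inr j => (⟨u.1.val - 1, by omega⟩, (π j).symm u.2)
  have hf : Function.Injective f := by
    rintro (i | i) (j | j) h
    · exact congrArg Sum.inl (hπ u.2 (congrArg Prod.snd h))
    · have := congrArg (fun z => z.1.val) h
      simp only [f] at this
      omega
    · have := congrArg (fun z => z.1.val) h
      simp only [f] at this
      omega
    · have h1 : (π i).symm u.2 = (π j).symm u.2 := congrArg Prod.snd h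
      have h2 : π i ((π i).symm u.2) = π j ((π i).symm u.2) := by
        rw [Equiv.apply_symm_apply, h1, Equiv.apply_symm_apply]
      exact congrArg Sum.inr (hπ _ h2)
  have h1 : (univ.filter fun w => (lay k T π).Adj u w) = univ.image f := by
    ext w
    simp only [mem_filter, mem_univ, true_and, mem_image]
    constructor
    · rintro (⟨h1, j, h2⟩ | ⟨h1, j, h2⟩)
      · exact ⟨Sum.inl j, Prod.ext (Fin.ext h1.symm) h2.symm⟩
      · refine ⟨Sum.inr j, Prod.ext (Fin.ext ?_) ?_⟩
        · simp only [f]; omega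
        · simp only [f]; rw [h2, Equiv.symm_apply_apply]
    · rintro ⟨i | j, rfl⟩
      · exact Or.inl ⟨rfl, i, rfl⟩
      · refine Or.inr ⟨?_, j, ?_⟩
        · simp only [f]; omega
        · simp only [f]; rw [Equiv.apply_symm_apply]
  rw [h1, card_image_of_injective _ hf, card_univ, Fintype.card_sum, Fintype.card_fin]
  omega

end layered

theorem t_BND : S_BND := by
  intro k T R0 Γ _ π S hk hπ hg hne hcard hconn hin
  have h := bd_card (lay k T π) (2 * k - 1) R0 (by omega) hg (S.card - 1) S
    (by have := hne.card_pos; omega) (by have := hne.card_pos; omega) hconn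
    (fun u hu => by
      rw [lay_deg π hπ u (hin u hu).1 (hin u hu).2]; omega)
  rw [h]
  have : 2 * k - 1 - 1 = 2 * k - 2 := by omega
  rw [this]

end Pool.Agent.Q25.LK
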