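import Pool.Agent.Q264.LK.Stm
import Pool.Agent.H749R3.Family

/-!
# Layered graphs of large girth
-/

set_option autoImplicit false

open Finset
open scoped Classical

namespace Pool.Agent.Q25.LK

open Pool.Agent.Q264.LK

section
variable {k : ℕ} (M : Subgroup (FreeGroup (Fin k))) [M.Normal]

/-- the generator in the quotient -/
def gen (j : Fin k) : FreeGroup (Fin k) ⧸ M := QuotientGroup.mk' M (FreeGroup.of j)

/-- the permutation -/
def pm (j : Fin k) : Equiv.Perm (FreeGroup (Fin k) ⧸ M) := Equiv.mulRight (gen M j)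

theorem pm_apply (j : Fin k) (x : FreeGroup (Fin k) ⧸ M) : pm M j x = x * gen M j := rfl

variable {T : ℕ}

/-- a letter labelling a step from `u` to `v` -/
def Lab (u v : Fin (T + 1) × (FreeGroup (Fin k) ⧸ M)) (a : Fin k × Bool) : Prop :=
  (a.2 = true ∧ v.1.val = u.1.val + 1 ∧ v.2 = pm M a.1 u.2) ∨
    (a.2 = false ∧ u.1.val = v.1.val + 1 ∧ u.2 = pm M a.1 v.2)

theorem exists_lab {u v : Fin (T + 1) × (FreeGroup (Fin k) ⧸ M)}
    (h : (lay k T (pm M)).Adj u v) : ∃ a, Lab M u v a := by
  rcases h with ⟨h1, j, h2⟩ | ⟨h1, j, h2⟩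
  · exact ⟨(j, true), Or.inl ⟨rfl, h1, h2⟩⟩
  · exact ⟨(j, false), Or.inr ⟨rfl, h1, h2⟩⟩

theorem lab_mul {u v : Fin (T + 1) × (FreeGroup (Fin k) ⧸ M)} {a : Fin k × Bool}
    (h : Lab M u v a) : v.2 = u.2 * QuotientGroup.mk' M (FreeGroup.mk [a]) := by
  obtain ⟨j, b⟩ := a
  rcases h with ⟨h0, -, h2⟩ | ⟨h0, -, h2⟩
  · simp only at h0 h2
    subst h0
    rw [h2, pm_apply]
    rfl
  · simp only at h0 h2
    subst h0
    have h3 : (FreeGroup.mk [(j, false)] : FreeGroup (Fin k)) = (FreeGroup.of j)⁻¹ := rfl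
    rw [h2, pm_apply, h3, map_inv]
    change v.2 = v.2 * gen M j * (gen M j)⁻¹
    rw [mul_inv_cancel_right]

/-- two steps with cancelling labels come back -/
theorem lab_back {u v w : Fin (T + 1) × (FreeGroup (Fin k) ⧸ M)} {a b : Fin k × Bool}
    (h : Lab M u v a) (h' : Lab M v w b) (h1 : a.1 = b.1) (h2 : a.2 ≠ b.2) : w = u := by
  obtain ⟨i, x⟩ := a
  obtain ⟨j, y⟩ := b
  simp only at h1 h2
  subst h1
  rcases h with ⟨h0, h3, h4⟩ | ⟨h0, h3, h4⟩ <;> rcases h' with ⟨h0', h3', h4'⟩ | ⟨h0', h3', h4'⟩ <;>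
    simp only at h0 h0' h3 h3' h4 h4' <;> subst h0 <;> subst h0'
  · exact absurd rfl h2
  · apply Prod.ext
    · apply Fin.ext; omega
    · exact (pm M i).injective (h4'.symm.trans h4)
  · apply Prod.ext
    · apply Fin.ext; omega
    · rw [h4', h4]
  · exact absurd rfl h2

theorem walk_word {u v : Fin (T + 1) × (FreeGroup (Fin k) ⧸ M)}
    (p : (lay k T (pm M)).Walk u v) : p.IsTrail →
    ∃ L : List (Fin k × Bool), L.length = p.length ∧ FreeGroup.IsReduced L ∧
      v.2 = u.2 * QuotientGroup.mk' M (FreeGroup.mk L) ∧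
      ∀ a ∈ L.head?, Lab M u p.snd a := by
  induction p with
  | nil =>
    intro _
    refine ⟨[], rfl, FreeGroup.IsReduced.nil, ?_, by simp⟩
    rw [← FreeGroup.one_eq_mk, map_one, mul_one]
  | @cons u u' v h q ih =>
    intro hp
    rw [SimpleGraph.Walk.isTrail_cons] at hp
    obtain ⟨L, hL1, hL2, hL3, hL4⟩ := ih hp.1
    obtain ⟨a, ha⟩ := exists_lab M h
    refine ⟨a :: L, by simp [hL1], ?_, ?_, ?_⟩
    · cases q with
      | nil =>
        have : L = [] := by
          apply List.length_eq_zero_iff.1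
          rw [hL1]; rfl
        subst this
        exact FreeGroup.IsReduced.singleton
      | @cons _ u'' _ h' q' =>
        cases L with
        | nil => simp at hL1
        | cons b L =>
          rw [FreeGroup.isReduced_cons_cons]
          refine ⟨?_, hL2⟩
          intro hab
          by_contra hne
          have hb : Lab M u' u'' b := by
            have := hL4 b (by simp)
            simpa using this
          have := lab_back M ha hb hab hne
          subst this
          apply hp.2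
          simp [Sym2.eq_swap]
    · rw [hL3, lab_mul M ha, mul_assoc, ← map_mul, FreeGroup.mul_mk]
      rfl
    · intro b hb
      simp only [List.head?_cons, Option.mem_def, Option.some.injEq] at hb
      subst hb
      simpa using ha

theorem girth_lay (R : ℕ) (hM : ∀ w ∈ M, w.norm ≤ R → w = 1) :
    (R : ℕ∞) < (lay k T (pm M)).egirth := by
  by_contra hlt
  rw [not_lt] at hlt
  have hne : (lay k T (pm M)).egirth ≠ ⊤ := by
    intro h
    rw [h] at hlt
    exact absurd hlt (by simp)
  have hcyc : ¬ (lay k T (pm M)).IsAcyclic := by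
    rw [← SimpleGraph.egirth_eq_top]; exact hne
  obtain ⟨u, c, hc, hlen⟩ := SimpleGraph.exists_egirth_eq_length.2 hcyc
  rw [hlen] at hlt
  have hlen' : c.length ≤ R := by exact_mod_cast hlt
  obtain ⟨L, hL1, hL2, hL3, -⟩ := walk_word M c hc.isTrail
  have h1 : QuotientGroup.mk' M (FreeGroup.mk L) = 1 := by
    have := hL3.symm
    rwa [mul_eq_left] at this
  have h2 : FreeGroup.mk L ∈ M := (QuotientGroup.eq_one_iff _).1 h1
  have h3 := hM _ h2 (FreeGroup.norm_mk_le.trans (hL1 ▸ hlen'))
  have h4 : L = [] := by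
    have h5 : (FreeGroup.mk L).toWord = [] := by rw [h3, FreeGroup.toWord_one]
    rw [FreeGroup.toWord_mk, hL2.reduce_eq] at h5
    exact h5
  have h6 := hc.three_le_length
  rw [← hL1, h4] at h6
  simp at h6

end

theorem t_GIRTH : S_GIRTH := by
  intro k R
  obtain ⟨M, hMn, hMi, hM⟩ := H749.Box.exists_girth k (R + 2)
  have hMf : M.FiniteIndex := ⟨hMi⟩
  have hfi : Finite (FreeGroup (Fin k) ⧸ M) := inferInstance
  refine ⟨FreeGroup (Fin k) ⧸ M, Fintype.ofFinite _, ⟨1⟩, pm M, ?_, ?_⟩
  · intro x i j hij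
    simp only [pm_apply] at hij
    have h1 : gen M i = gen M j := mul_left_cancel hij
    have h2 : FreeGroup.of i * (FreeGroup.of j)⁻¹ ∈ M := by
      apply (QuotientGroup.eq_one_iff _).1
      change QuotientGroup.mk' M (FreeGroup.of i * (FreeGroup.of j)⁻¹) = 1
      rw [map_mul, map_inv]
      change gen M i * (gen M j)⁻¹ = 1
      rw [h1, mul_inv_cancel]
    have h3 := hM _ h2 ((FreeGroup.norm_mk_le (L₁ := [(i, true), (j, false)])).trans (by simp))
    have h4 : FreeGroup.of i = FreeGroup.of j := mul_inv_eq_one.1 h3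
    exact FreeGroup.of_injective h4
  · intro T
    refine girth_lay M R ?_
    intro w hw hwR
    exact hM w hw (by omega)

end Pool.Agent.Q25.LK
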